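import Mathlib
import Pool.Agent.H19.OM.Stm3
import Pool.Graph.R_seed8.Erdos456.Mertens

/-!
# Project OM, module ERR2: the errors tend to zero if `N ≥ y ^ (A₀ (log log y)^2)`
-/

set_option autoImplicit false

namespace Pool.Agent.H71.OM

open Finset Filter Topology Pool.Agent.H19.OM

theorem tX : Tendsto (fun y : ℕ => Real.log (Real.log y)) atTop atTop :=
  Real.tendsto_log_atTop.comp (Real.tendsto_log_atTop.comp tendsto_natCast_atTop_atTop)

theorem T1 : Tendsto (fun y : ℕ => (4 * Real.log (Real.log y) + 4) *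
    (2 / (2 : ℝ) ^ ⌊Real.sqrt (Real.log (Real.log y)) / 2⌋₊)) atTop (𝓝 0) := by
  have hL : Tendsto (fun y : ℕ => ⌊Real.sqrt (Real.log (Real.log y)) / 2⌋₊) atTop atTop := by
    refine tendsto_nat_floor_atTop.comp ?_
    exact (Real.tendsto_sqrt_atTop.comp tX).atTop_div_const two_pos
  have hG : Tendsto (fun l : ℕ => (16 * ((l : ℝ) + 1) ^ 2 + 4) * (2 / (2 : ℝ) ^ l)) atTop (𝓝 0) := by
    have h2 := tendsto_pow_const_div_const_pow_of_one_lt 2 (r := (2 : ℝ)) one_lt_two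
    have h1 := tendsto_pow_const_div_const_pow_of_one_lt 1 (r := (2 : ℝ)) one_lt_two
    have h0 := tendsto_pow_const_div_const_pow_of_one_lt 0 (r := (2 : ℝ)) one_lt_two
    have h := ((h2.const_mul 32).add (h1.const_mul 64)).add (h0.const_mul 40)
    simp only [mul_zero, add_zero] at h
    refine h.congr fun l => ?_
    ring
  have hX := tX.eventually_ge_atTop 0
  refine squeeze_zero' ?_ ?_ (hG.comp hL)
  · filter_upwards [hX] with y hy
    positivity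
  · filter_upwards [hX] with y hy
    simp only [Function.comp]
    refine mul_le_mul_of_nonneg_right ?_ (by positivity)
    have h1 := (Nat.lt_floor_add_one (Real.sqrt (Real.log (Real.log y)) / 2)).le
    have h2 := Real.sq_sqrt hy
    have h3 := Real.sqrt_nonneg (Real.log (Real.log y))
    set s := Real.sqrt (Real.log (Real.log y)) with hs
    have h4 : (s / 2) ^ 2 ≤ ((⌊s / 2⌋₊ : ℝ) + 1) ^ 2 := by
      refine pow_le_pow_left₀ (by positivity) h1 2
    nlinarith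

theorem T2 : Tendsto (fun y : ℕ => (4 * Real.log (Real.log y) + 4) *
    (1 / (⌊Real.log (Real.log y) ^ 3⌋₊ : ℝ))) atTop (𝓝 0) := by
  have h12 : Tendsto (fun y : ℕ => 12 / Real.log (Real.log y)) atTop (𝓝 0) :=
    tX.const_div_atTop 12
  have hX := tX.eventually_ge_atTop 2
  refine squeeze_zero' ?_ ?_ h12
  · filter_upwards [hX] with y hy
    positivity
  · filter_upwards [hX] with y hy
    set X := Real.log (Real.log y) with hXd
    have h1 := (Nat.sub_one_lt_floor (X ^ 3)).le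
    have h3 : (8 : ℝ) ≤ X ^ 3 := by
      calc (8 : ℝ) = 2 ^ 3 := by norm_num
        _ ≤ X ^ 3 := pow_le_pow_left₀ (by norm_num) hy 3
    have h2 : X ^ 3 / 2 ≤ (⌊X ^ 3⌋₊ : ℝ) := by linarith
    have hp : 0 < X ^ 3 / 2 := by linarith
    have h4 : 1 / (⌊X ^ 3⌋₊ : ℝ) ≤ 1 / (X ^ 3 / 2) := one_div_le_one_div_of_le hp h2
    calc (4 * X + 4) * (1 / (⌊X ^ 3⌋₊ : ℝ)) ≤ (6 * X) * (1 / (X ^ 3 / 2)) := by
          refine mul_le_mul (by linarith) h4 (by positivity) (by linarith)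
      _ = 12 / X ^ 2 := by
          have : X ≠ 0 := by linarith
          field_simp
          norm_num
      _ ≤ 12 / X := by
          refine div_le_div_of_nonneg_left (by norm_num) (by linarith) ?_
          nlinarith

theorem X_le (y : ℕ) (_ : 0 ≤ Real.log (Real.log y)) : Real.log (Real.log y) ≤ Real.log y ∧
    Real.log y ≤ y := by
  have h0 : 0 ≤ Real.log y := by
    by_contra hc
    have : 0 ≤ Real.log (y : ℝ) := Real.log_natCast_nonneg y
    exact hc this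
  constructor
  · have := Real.log_le_self h0
    exact this
  · exact Real.log_le_self (Nat.cast_nonneg y)

theorem T5 : Tendsto (fun y : ℕ => (4 * Real.log (Real.log y) + 4) * (1 / (y : ℝ))) atTop (𝓝 0) := by
  have h1 : Tendsto (fun y : ℕ => Real.log y / (y : ℝ)) atTop (𝓝 0) := by
    have h := Real.isLittleO_log_id_atTop.tendsto_div_nhds_zero.comp (tendsto_natCast_atTop_atTop (R := ℝ))
    exact h
  have h2 : Tendsto (fun y : ℕ => 8 * (Real.log y / (y : ℝ))) atTop (𝓝 0) := by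
    simpa using h1.const_mul 8
  have hX := tX.eventually_ge_atTop 1
  refine squeeze_zero' ?_ ?_ h2
  · filter_upwards [hX] with y hy
    positivity
  · filter_upwards [hX] with y hy
    obtain ⟨h3, h4⟩ := X_le y (by linarith)
    have h5 : (4 * Real.log (Real.log y) + 4) * (1 / (y : ℝ)) ≤ (8 * Real.log y) * (1 / (y : ℝ)) :=
      mul_le_mul_of_nonneg_right (by linarith) (by positivity)
    refine h5.trans (le_of_eq ?_)
    ring

theorem T6 : Tendsto (fun y : ℕ => (4 * Real.log (Real.log y) + 4) *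
    Real.exp (-Real.log (Real.log y))) atTop (𝓝 0) := by
  have h1 := (Real.tendsto_pow_mul_exp_neg_atTop_nhds_zero 1).comp tX
  have h0 := (Real.tendsto_pow_mul_exp_neg_atTop_nhds_zero 0).comp tX
  have h := (h1.const_mul 4).add (h0.const_mul 4)
  simp only [mul_zero, add_zero] at h
  refine h.congr fun y => ?_
  simp only [Function.comp]
  ring

theorem ev4 : ∀ᶠ y : ℕ in atTop, Real.log (Real.log y) ^ 4 ≤ Real.log y := by
  have h1 : ∀ᶠ x : ℝ in atTop, ‖Real.log x ^ 4‖ ≤ 1 * ‖id x‖ :=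
    (Real.isLittleO_pow_log_id_atTop (n := 4)).bound one_pos
  have h2 : Tendsto (fun y : ℕ => Real.log (y : ℝ)) atTop atTop :=
    Real.tendsto_log_atTop.comp tendsto_natCast_atTop_atTop
  filter_upwards [h2.eventually h1] with y hy
  have h0 : 0 ≤ Real.log (y : ℝ) := Real.log_natCast_nonneg y
  rw [one_mul, id, Real.norm_of_nonneg h0] at hy
  exact (le_abs_self _).trans hy

/-- the sum over the primes -/
theorem mert : ∃ C : ℝ, 0 ≤ C ∧ ∀ M y : ℕ, 3 ≤ y → M ≤ y →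
    ∑ p ∈ prs 0 M ∪ prs M y, 1 / (p : ℝ) ≤ Real.log (Real.log y) + C := by
  obtain ⟨C, hC⟩ := Pool.Agent.Erdos456.Mert.mertens_inv
  refine ⟨C, (abs_nonneg _).trans (hC 3 le_rfl), fun M y hy hM => ?_⟩
  have h1 := abs_le.1 (hC y hy)
  have h2 : ∑ p ∈ prs 0 M ∪ prs M y, 1 / (p : ℝ) ≤ ∑ p ∈ (Finset.Icc 1 y).filter Nat.Prime, (1 : ℝ) / p := by
    refine sum_le_sum_of_subset_of_nonneg ?_ fun _ _ _ => by positivity
    intro p hp
    simp only [prs, mem_union, mem_filter, mem_Ioc, mem_Icc] at hp ⊢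
    rcases hp with ⟨⟨h3, h4⟩, h5⟩ | ⟨⟨h3, h4⟩, h5⟩
    · exact ⟨⟨h3, h4.trans hM⟩, h5⟩
    · exact ⟨⟨by omega, h4⟩, h5⟩
  linarith

/-- the joint mean -/
theorem core (hK3 : S_K3) (hK4 : S_K4) (hK5 : S_K5) : ∀ᶠ y : ℕ in atTop, ∀ N k : ℕ,
    (y : ℝ) ^ (2000 * Real.log (Real.log y) ^ 2) ≤ N → 1 ≤ k →
    (k : ℝ) ≤ 2 * Real.log (Real.log y) + 2 → ∀ φ : (Fin k → ℕ) → ℝ, Bd φ →
    |emp y N φ - J (cap ⌊Real.log (Real.log y) ^ 3⌋₊ ⌊Real.sqrt (Real.log (Real.log y)) / 2⌋₊)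
      (prs 0 ⌊Real.log (Real.log y) ^ 3⌋₊ ∪ prs ⌊Real.log (Real.log y) ^ 3⌋₊ y) φ| ≤
    2 * k * (2 / (2 : ℝ) ^ ⌊Real.sqrt (Real.log (Real.log y)) / 2⌋₊ +
      1 / (⌊Real.log (Real.log y) ^ 3⌋₊ : ℝ) + 1 / (y : ℝ)) +
      (4 * Real.exp (-Real.log (Real.log y)) + 6 * (1 / (y : ℝ))) := by
  obtain ⟨C, hC0, hC⟩ := mert
  filter_upwards [tX.eventually_ge_atTop (max 50 C), ev4, eventually_ge_atTop 4] with y hy h4 hy4 N k hN hk hkX φ hφ
  have hX50 : 50 ≤ Real.log (Real.log y) := (le_max_left _ _).trans hy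
  have hXC : C ≤ Real.log (Real.log y) := (le_max_right _ _).trans hy
  obtain ⟨h1, h2⟩ := X_le y (by linarith)
  have hm := hC ⌊Real.log (Real.log y) ^ 3⌋₊ y (by omega)
  have hexp : Real.exp (Real.log y) = y := Real.exp_log (by exact_mod_cast (by omega : 0 < y))
  obtain ⟨ℓ, hℓ⟩ : ∃ ℓ, Real.log (y : ℝ) = ℓ := ⟨_, rfl⟩
  rw [hℓ] at hX50 hXC h1 h2 hm hexp hN hkX h4 ⊢
  obtain ⟨X, hXd⟩ : ∃ X, Real.log ℓ = X := ⟨_, rfl⟩
  rw [hXd] at hX50 hXC h1 hm hN hkX h4 ⊢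
  obtain ⟨M, hM⟩ : ∃ M, M = ⌊X ^ 3⌋₊ := ⟨_, rfl⟩
  obtain ⟨L, hL⟩ : ∃ L, L = ⌊Real.sqrt X / 2⌋₊ := ⟨_, rfl⟩
  rw [← hM] at hm ⊢
  rw [← hL]
  have hM1 : 1 ≤ M := by
    rw [hM, Nat.one_le_floor_iff]
    exact one_le_pow₀ (by linarith)
  have hMle : (M : ℝ) ≤ X ^ 3 := by
    rw [hM]
    exact Nat.floor_le (by positivity)
  have hsq : 2 ≤ Real.sqrt X := by
    rw [Real.le_sqrt' (by norm_num)]
    linarith
  have hL1 : 1 ≤ L := by
    rw [hL, Nat.one_le_floor_iff]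
    linarith
  have hLle : (L : ℝ) ≤ X := by
    rw [hL]
    refine (Nat.floor_le (by positivity)).trans ?_
    have h3 := Real.sq_sqrt (show (0 : ℝ) ≤ X by linarith)
    nlinarith
  have hX34 : X ^ 3 ≤ X ^ 4 := pow_le_pow_right₀ (by linarith) (by norm_num)
  have hMy : M ≤ y := by
    have : (M : ℝ) ≤ y := by linarith
    exact_mod_cast this
  have hM0 : (0 : ℝ) < M := by exact_mod_cast hM1
  have hy0 : (0 : ℝ) < y := by exact_mod_cast (by omega : 0 < y)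
  have hy1 : (1 : ℝ) ≤ y := by exact_mod_cast (by omega : 1 ≤ y)
  have hk3 : (k : ℝ) ≤ 3 * X := by linarith
  -- M ^ L ≤ y
  have hML : M ^ L ≤ y := by
    have h5 : ((M ^ L : ℕ) : ℝ) ≤ y := by
      push_cast
      rw [← hexp, ← Real.exp_log hM0, ← Real.exp_nat_mul]
      refine Real.exp_le_exp.2 ?_
      have h7 : Real.log M ≤ X ^ 3 := (Real.log_le_self hM0.le).trans hMle
      calc (L : ℝ) * Real.log M ≤ X * X ^ 3 := mul_le_mul hLle h7
            (Real.log_nonneg (by exact_mod_cast hM1)) (by linarith)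
        _ = X ^ 4 := by ring
        _ ≤ ℓ := h4
    exact_mod_cast h5
  -- N is large
  have hexpo : ∀ m : ℕ, (m : ℝ) ≤ 2000 * X ^ 2 → (y : ℝ) ^ m ≤ N := by
    intro m hm
    refine le_trans ?_ hN
    rw [← Real.rpow_natCast]
    exact Real.rpow_le_rpow_of_exponent_le hy1 hm
  have hX2 : 2500 ≤ X ^ 2 := by nlinarith
  have hN1 : (1 : ℝ) ≤ N := by
    have := hexpo 0 (by simp; positivity)
    simpa using this
  have hN1' : 1 ≤ N := by exact_mod_cast hN1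
  have hN0 : (0 : ℝ) < N := by linarith
  have hyN : (y : ℝ) / N ≤ 1 / y := by
    rw [div_le_div_iff₀ hN0 hy0]
    have := hexpo 2 (by norm_num; linarith)
    nlinarith
  -- (K5)
  have g5 := hK5 y M L N k hN1' hL1 hM1 hMy φ hφ
  -- the primes and the caps
  have hcap : ∀ p, cap M L p ≤ L := by
    intro p
    unfold cap
    split_ifs
    · exact le_rfl
    · exact hL1
  have hcap1 : ∀ p, 1 ≤ cap M L p := by
    intro p
    unfold cap
    split_ifs
    · exact hL1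
    · exact le_rfl
  have hS : ∀ p ∈ prs 0 M ∪ prs M y, p.Prime ∧ p ≤ y ∧ (¬ p ≤ M → M < p) := by
    intro p hp
    simp only [prs, mem_union, mem_filter, mem_Ioc] at hp
    rcases hp with ⟨⟨h3, h4⟩, h5⟩ | ⟨⟨h3, h4⟩, h5⟩
    · exact ⟨h5, h4.trans hMy, fun h => by omega⟩
    · exact ⟨h5, h4, fun h => by omega⟩
  have hpy : ∀ p ∈ prs 0 M ∪ prs M y, p.Prime ∧ p ^ cap M L p ≤ y := by
    intro p hp
    obtain ⟨h5, h6, -⟩ := hS p hp
    refine ⟨h5, ?_⟩
    unfold cap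
    split_ifs with h7
    · exact (Nat.pow_le_pow_left h7 L).trans hML
    · simpa using h6
  have hW : k * ∑ p ∈ prs 0 M ∪ prs M y, cap M L p ≤ y ^ 2 := by
    have h5 : ∑ p ∈ prs 0 M ∪ prs M y, cap M L p ≤ y * L := by
      refine (sum_le_card_nsmul _ _ L fun p _ => hcap p).trans ?_
      rw [smul_eq_mul]
      refine Nat.mul_le_mul_right L ?_
      have h6 : prs 0 M ∪ prs M y ⊆ Ioc 0 y := by
        intro p hp
        obtain ⟨h7, h8, -⟩ := hS p hp
        exact mem_Ioc.2 ⟨h7.pos, h8⟩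
      simpa using card_le_card h6
    have h6 : k * L ≤ y := by
      have h7 : ((k * L : ℕ) : ℝ) ≤ y := by
        push_cast
        calc (k : ℝ) * L ≤ (3 * X) * X := mul_le_mul hk3 hLle (Nat.cast_nonneg _) (by linarith)
          _ = 3 * X ^ 2 := by ring
          _ ≤ X ^ 2 * X ^ 2 := mul_le_mul_of_nonneg_right (by linarith) (by positivity)
          _ = X ^ 4 := by ring
          _ ≤ y := h4.trans h2
      exact_mod_cast h7
    calc k * ∑ p ∈ prs 0 M ∪ prs M y, cap M L p ≤ k * (y * L) := Nat.mul_le_mul_left k h5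
      _ = y * (k * L) := by ring
      _ ≤ y * y := Nat.mul_le_mul_left y h6
      _ = y ^ 2 := by ring
  -- the moment
  have g3 := hK3 (prs 0 M ∪ prs M y) (cap M L) k L fun p hp => ⟨(hS p hp).1, hcap1 p, fun _ => hcap p⟩
  have g4 := hK4 (prs 0 M ∪ prs M y) (cap M L) k ⌈400 * X ^ 2⌉₊ (y ^ 2) y N hN1' (by omega) hpy hW φ hφ
  obtain ⟨R, hR⟩ : ∃ R, R = ⌈400 * X ^ 2⌉₊ := ⟨_, rfl⟩
  rw [← hR] at g4
  have hR1 : 400 * X ^ 2 ≤ R := by
    rw [hR]
    exact Nat.le_ceil _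
  have hR2 : (R : ℝ) ≤ 401 * X ^ 2 := by
    rw [hR]
    have := (Nat.ceil_lt_add_one (show 0 ≤ 400 * X ^ 2 by positivity)).le
    linarith
  obtain ⟨E, hE⟩ : ∃ E : ℝ, E = (∑ n ∈ range (Mo (cap M L) (prs 0 M ∪ prs M y)),
    (25 : ℝ) ^ (∑ i : Fin k, ∑ p ∈ prs 0 M ∪ prs M y, val p (cap M L p) (n + i))) /
      Mo (cap M L) (prs 0 M ∪ prs M y) := ⟨_, rfl⟩
  rw [← hE] at g3 g4
  have hE1 : E ≤ Real.exp (400 * X ^ 2) := by
    refine g3.trans ?_
    have e1 : (25 : ℝ) ≤ Real.exp 4 := by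
      have h5 : (2.7 : ℝ) ≤ Real.exp 1 := by
        have := Real.exp_one_gt_d9
        linarith
      have h6 : Real.exp 4 = Real.exp 1 ^ 4 := by
        rw [← Real.exp_nat_mul]
        norm_num
      rw [h6]
      calc (25 : ℝ) ≤ 2.7 ^ 4 := by norm_num
        _ ≤ Real.exp 1 ^ 4 := pow_le_pow_left₀ (by norm_num) h5 4
    have e2 : (25 : ℝ) ^ ((k + 50) * (k + L)) ≤ Real.exp (64 * X ^ 2) := by
      refine (pow_le_pow_left₀ (by norm_num) e1 _).trans ?_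
      rw [← Real.exp_nat_mul]
      refine Real.exp_le_exp.2 ?_
      push_cast
      have h5 : ((k : ℝ) + 50) * (k + L) ≤ (4 * X) * (4 * X) :=
        mul_le_mul (by linarith) (by linarith) (by positivity) (by linarith)
      nlinarith
    have e3 : 50 * (k : ℝ) * ∑ p ∈ prs 0 M ∪ prs M y, 1 / (p : ℝ) ≤ 300 * X ^ 2 := by
      have h5 := hm hMy
      calc 50 * (k : ℝ) * ∑ p ∈ prs 0 M ∪ prs M y, 1 / (p : ℝ) ≤ 50 * (k : ℝ) * (2 * X) :=
            mul_le_mul_of_nonneg_left (by linarith) (by positivity)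
        _ ≤ 50 * (3 * X) * (2 * X) := by
            refine mul_le_mul_of_nonneg_right (by linarith) (by linarith)
        _ = 300 * X ^ 2 := by ring
    calc (25 : ℝ) ^ ((k + 50) * (k + L)) * Real.exp (50 * (k : ℝ) * ∑ p ∈ prs 0 M ∪ prs M y, 1 / (p : ℝ))
        ≤ Real.exp (64 * X ^ 2) * Real.exp (300 * X ^ 2) :=
          mul_le_mul e2 (Real.exp_le_exp.2 e3) (Real.exp_pos _).le (Real.exp_pos _).le
      _ = Real.exp (64 * X ^ 2 + 300 * X ^ 2) := (Real.exp_add _ _).symm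
      _ ≤ Real.exp (400 * X ^ 2) := Real.exp_le_exp.2 (by nlinarith)
  have hE2 : E / 8 ^ R ≤ Real.exp (-X) := by
    have e1 : Real.exp 2 ≤ 8 := by
      have h5 := Real.exp_one_lt_d9
      have h6 : Real.exp 2 = Real.exp 1 ^ 2 := by
        rw [← Real.exp_nat_mul]
        norm_num
      rw [h6]
      have h7 := Real.exp_pos 1
      nlinarith
    have e2 : Real.exp (800 * X ^ 2) ≤ 8 ^ R := by
      refine le_trans ?_ (pow_le_pow_left₀ (Real.exp_pos 2).le e1 R)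
      rw [← Real.exp_nat_mul]
      refine Real.exp_le_exp.2 ?_
      linarith
    rw [div_le_iff₀ (by positivity)]
    refine hE1.trans ?_
    calc Real.exp (400 * X ^ 2) ≤ Real.exp (-X + 800 * X ^ 2) := Real.exp_le_exp.2 (by nlinarith)
      _ = Real.exp (-X) * Real.exp (800 * X ^ 2) := Real.exp_add _ _
      _ ≤ Real.exp (-X) * 8 ^ R := mul_le_mul_of_nonneg_left e2 (Real.exp_pos _).le
  have hP : (1 + 3 * ((y ^ 2 : ℕ) : ℝ) * y) ^ R / N ≤ 1 / y := by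
    rw [div_le_div_iff₀ hN0 hy0, one_mul]
    have h5 : 1 + 3 * ((y ^ 2 : ℕ) : ℝ) * y ≤ (y : ℝ) ^ 4 := by
      have h6 : 1 + 3 * y ^ 2 * y ≤ y ^ 4 := by
        have : 1 ≤ y ^ 3 := Nat.one_le_pow _ _ (by omega)
        calc 1 + 3 * y ^ 2 * y ≤ y ^ 3 + 3 * y ^ 3 := by
              have : 3 * y ^ 2 * y = 3 * y ^ 3 := by ring
              omega
          _ = 4 * y ^ 3 := by ring
          _ ≤ y * y ^ 3 := Nat.mul_le_mul_right _ hy4
          _ = y ^ 4 := by ring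
      exact_mod_cast h6
    calc (1 + 3 * ((y ^ 2 : ℕ) : ℝ) * y) ^ R * y ≤ ((y : ℝ) ^ 4) ^ R * y :=
          mul_le_mul_of_nonneg_right (pow_le_pow_left₀ (by positivity) h5 R) hy0.le
      _ = (y : ℝ) ^ (4 * R + 1) := by rw [← pow_mul, pow_succ]
      _ ≤ N := hexpo _ (by push_cast; nlinarith)
  -- assembly
  have g6 : |emp y N φ - J (cap M L) (prs 0 M ∪ prs M y) φ| ≤
      |emp y N φ - empc (cap M L) (prs 0 M ∪ prs M y) N φ| +
        |empc (cap M L) (prs 0 M ∪ prs M y) N φ - J (cap M L) (prs 0 M ∪ prs M y) φ| :=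
    abs_sub_le _ _ _
  have g7 : 2 * (k : ℝ) * (2 / (2 : ℝ) ^ L + 1 / M + y / N) ≤
      2 * k * (2 / (2 : ℝ) ^ L + 1 / M + 1 / y) :=
    mul_le_mul_of_nonneg_left (by linarith) (by positivity)
  have g8 : 4 * E / 8 ^ R + 6 * (1 + 3 * ((y ^ 2 : ℕ) : ℝ) * y) ^ R / N ≤
      4 * Real.exp (-X) + 6 * (1 / (y : ℝ)) := by
    rw [mul_div_assoc, mul_div_assoc]
    linarith
  linarith

/-- **Module ERR2.** -/
theorem t_ERR2 (hK3 : S_K3) (hK4 : S_K4) (hK5 : S_K5) (hK6 : S_K6) : S_ERR2 := by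
  refine ⟨2000, fun ε hε => ?_⟩
  have hG : Tendsto (fun y : ℕ => (4 * Real.log (Real.log y) + 4) *
      (2 / (2 : ℝ) ^ ⌊Real.sqrt (Real.log (Real.log y)) / 2⌋₊) +
      (4 * Real.log (Real.log y) + 4) * (1 / (⌊Real.log (Real.log y) ^ 3⌋₊ : ℝ)) +
      4 * ((4 * Real.log (Real.log y) + 4) * (1 / (y : ℝ))) +
      2 * ((4 * Real.log (Real.log y) + 4) * Real.exp (-Real.log (Real.log y)))) atTop (𝓝 0) := by
    have := ((T1.add T2).add (T5.const_mul 4)).add (T6.const_mul 2)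
    simpa using this
  have hG' := hG.eventually_le_const hε
  have hall := (core hK3 hK4 hK5).and (hG'.and (tX.eventually_ge_atTop 0))
  obtain ⟨A, hA⟩ := eventually_atTop.1 hall
  refine ⟨max A 1, fun y N k hy hN hk hkX φ hφ => ?_⟩
  obtain ⟨hc, hg, hX0⟩ := hA y ((le_max_left _ _).trans hy)
  have hy1 : 1 ≤ y := (le_max_right _ _).trans hy
  push_cast at hN
  have hN1' : 1 ≤ N := by
    have h1 : (1 : ℝ) ≤ (y : ℝ) ^ (2000 * Real.log (Real.log y) ^ 2) :=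
      Real.one_le_rpow (by exact_mod_cast hy1) (by positivity)
    exact_mod_cast h1.trans hN
  have hk1 : (1 : ℝ) ≤ k := by exact_mod_cast hk
  obtain ⟨X, hXd⟩ : ∃ X, Real.log (Real.log (y : ℝ)) = X := ⟨_, rfl⟩
  rw [hXd] at hc hg hX0 hN hkX ⊢
  obtain ⟨M, hM⟩ : ∃ M, ⌊X ^ 3⌋₊ = M := ⟨_, rfl⟩
  obtain ⟨L, hL⟩ : ∃ L, ⌊Real.sqrt X / 2⌋₊ = L := ⟨_, rfl⟩
  rw [hM] at hc hg ⊢
  rw [hL] at hc hg ⊢
  have ha : (0 : ℝ) ≤ 2 / 2 ^ L := by positivity
  have hb : (0 : ℝ) ≤ 1 / (M : ℝ) := by positivity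
  have hcc : (0 : ℝ) ≤ 1 / (y : ℝ) := by positivity
  have he : 0 ≤ Real.exp (-X) := (Real.exp_pos _).le
  obtain ⟨a, had⟩ : ∃ a : ℝ, 2 / (2 : ℝ) ^ L = a := ⟨_, rfl⟩
  obtain ⟨b, hbd⟩ : ∃ b : ℝ, 1 / (M : ℝ) = b := ⟨_, rfl⟩
  obtain ⟨c, hcd⟩ : ∃ c : ℝ, 1 / (y : ℝ) = c := ⟨_, rfl⟩
  obtain ⟨e, hed⟩ : ∃ e : ℝ, Real.exp (-X) = e := ⟨_, rfl⟩
  rw [had] at ha
  rw [hbd] at hb
  rw [hcd] at hcc
  rw [hed] at he
  rw [had, hbd, hcd, hed] at hc hg
  have key : (k : ℝ) * (2 * (a + b + c) + (4 * e + 6 * c)) ≤ ε := by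
    calc (k : ℝ) * (2 * (a + b + c) + (4 * e + 6 * c)) ≤ (2 * X + 2) * (2 * (a + b + c) + (4 * e + 6 * c)) :=
          mul_le_mul_of_nonneg_right hkX (by positivity)
      _ = (4 * X + 4) * a + (4 * X + 4) * b + 4 * ((4 * X + 4) * c) + 2 * ((4 * X + 4) * e) := by ring
      _ ≤ ε := hg
  constructor
  · refine (hc N k hN hk hkX φ hφ).trans (le_trans ?_ key)
    have : 4 * e + 6 * c ≤ k * (4 * e + 6 * c) := le_mul_of_one_le_left (by positivity) hk1
    nlinarith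
  · refine (hK6 y N (cap M L) (prs 0 M ∪ prs M y) (2 * (a + b + c) + (4 * e + 6 * c)) hN1' ?_ ?_ k φ hφ).trans key
    · intro p hp
      simp only [prs, mem_union, mem_filter, mem_Ioc] at hp
      rcases hp with hp | hp
      · exact hp.2
      · exact hp.2
    · intro ψ hψ
      have := hc N 1 hN le_rfl (by push_cast; linarith) ψ hψ
      simpa using this

end Pool.Agent.H71.OM
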