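import Mathlib
import Pool.Agent.H19.OM.Stm4
import Pool.Agent.H71.OM.ERR2

/-!
# Project OM, module ERR3: the errors tend to zero if `k ≤ C log log y`, `N ≥ y ^ (log log y)^3`
-/

set_option autoImplicit false

namespace Pool.Agent.H71.OM.E3

open Finset Filter Topology Pool.Agent.H19.OM Pool.Agent.H71.OM

/-- the joint mean -/
theorem core (hK3 : S_K3) (hK4 : S_K4) (hK5 : S_K5) (C₁ : ℝ) (hC1 : 1 ≤ C₁) : ∀ᶠ y : ℕ in atTop, ∀ N k : ℕ,
    (y : ℝ) ^ (Real.log (Real.log y) ^ 3) ≤ N → 1 ≤ k →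
    (k : ℝ) ≤ C₁ * Real.log (Real.log y) → ∀ φ : (Fin k → ℕ) → ℝ, Bd φ →
    |emp y N φ - J (cap ⌊Real.log (Real.log y) ^ 3⌋₊ ⌊Real.sqrt (Real.log (Real.log y)) / 2⌋₊)
      (prs 0 ⌊Real.log (Real.log y) ^ 3⌋₊ ∪ prs ⌊Real.log (Real.log y) ^ 3⌋₊ y) φ| ≤
    2 * k * (2 / (2 : ℝ) ^ ⌊Real.sqrt (Real.log (Real.log y)) / 2⌋₊ +
      1 / (⌊Real.log (Real.log y) ^ 3⌋₊ : ℝ) + 1 / (y : ℝ)) +
      (4 * Real.exp (-Real.log (Real.log y)) + 6 * (1 / (y : ℝ))) := by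
  obtain ⟨C, hC0, hC⟩ := mert
  obtain ⟨D, hD⟩ : ∃ D : ℝ, D = 4 * (C₁ + 1) ^ 2 + 100 * C₁ := ⟨_, rfl⟩
  have hD1 : 116 * C₁ ≤ D := by
    rw [hD]
    nlinarith
  filter_upwards [tX.eventually_ge_atTop (max (max 50 C) (4 * D + 1)), ev4, eventually_ge_atTop 4] with y hy h4 hy4 N k hN hk hkX φ hφ
  have hX50 : 50 ≤ Real.log (Real.log y) := (le_max_left _ _).trans ((le_max_left _ _).trans hy)
  have hXC : C ≤ Real.log (Real.log y) := (le_max_right _ _).trans ((le_max_left _ _).trans hy)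
  have hXD : 4 * D + 1 ≤ Real.log (Real.log y) := (le_max_right _ _).trans hy
  obtain ⟨h1, h2⟩ := X_le y (by linarith)
  have hm := hC ⌊Real.log (Real.log y) ^ 3⌋₊ y (by omega)
  have hexp : Real.exp (Real.log y) = y := Real.exp_log (by exact_mod_cast (by omega : 0 < y))
  obtain ⟨ℓ, hℓ⟩ : ∃ ℓ, Real.log (y : ℝ) = ℓ := ⟨_, rfl⟩
  rw [hℓ] at hX50 hXC hXD h1 h2 hm hexp hN hkX h4 ⊢
  obtain ⟨X, hXd⟩ : ∃ X, Real.log ℓ = X := ⟨_, rfl⟩
  rw [hXd] at hX50 hXC hXD h1 hm hN hkX h4 ⊢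
  obtain ⟨M, hM⟩ : ∃ M, M = ⌊X ^ 3⌋₊ := ⟨_, rfl⟩
  obtain ⟨L, hL⟩ : ∃ L, L = ⌊Real.sqrt X / 2⌋₊ := ⟨_, rfl⟩
  rw [← hM] at hm ⊢
  rw [← hL]
  have hM1 : 1 ≤ M := by
    rw [hM, Nat.one_le_floor_iff]
    exact one_le_pow₀ (by linarith)
  have hMle : (M : ℝ) ≤ X ^ 3 := by
    rw [hM]
    exact Nat.floor_le (by positivity)
  have hsq : 2 ≤ Real.sqrt X := by
    rw [Real.le_sqrt' (by norm_num)]
    linarith
  have hL1 : 1 ≤ L := by
    rw [hL, Nat.one_le_floor_iff]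
    linarith
  have hLle : (L : ℝ) ≤ X := by
    rw [hL]
    refine (Nat.floor_le (by positivity)).trans ?_
    have h3 := Real.sq_sqrt (show (0 : ℝ) ≤ X by linarith)
    nlinarith
  have hX34 : X ^ 3 ≤ X ^ 4 := pow_le_pow_right₀ (by linarith) (by norm_num)
  have hMy : M ≤ y := by
    have : (M : ℝ) ≤ y := by linarith
    exact_mod_cast this
  have hM0 : (0 : ℝ) < M := by exact_mod_cast hM1
  have hy0 : (0 : ℝ) < y := by exact_mod_cast (by omega : 0 < y)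
  have hy1 : (1 : ℝ) ≤ y := by exact_mod_cast (by omega : 1 ≤ y)
  -- M ^ L ≤ y
  have hML : M ^ L ≤ y := by
    have h5 : ((M ^ L : ℕ) : ℝ) ≤ y := by
      push_cast
      rw [← hexp, ← Real.exp_log hM0, ← Real.exp_nat_mul]
      refine Real.exp_le_exp.2 ?_
      have h7 : Real.log M ≤ X ^ 3 := (Real.log_le_self hM0.le).trans hMle
      calc (L : ℝ) * Real.log M ≤ X * X ^ 3 := mul_le_mul hLle h7
            (Real.log_nonneg (by exact_mod_cast hM1)) (by linarith)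
        _ = X ^ 4 := by ring
        _ ≤ ℓ := h4
    exact_mod_cast h5
  -- N is large
  have hexpo : ∀ m : ℕ, (m : ℝ) ≤ X ^ 3 → (y : ℝ) ^ m ≤ N := by
    intro m hm
    refine le_trans ?_ hN
    rw [← Real.rpow_natCast]
    exact Real.rpow_le_rpow_of_exponent_le hy1 hm
  have hX2 : 2500 ≤ X ^ 2 := by nlinarith
  have hX3 : 4 * D * X ^ 2 + X ^ 2 ≤ X ^ 3 := by
    have h3 : (4 * D + 1) * X ^ 2 ≤ X * X ^ 2 := mul_le_mul_of_nonneg_right hXD (by positivity)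
    calc 4 * D * X ^ 2 + X ^ 2 = (4 * D + 1) * X ^ 2 := by ring
      _ ≤ X * X ^ 2 := h3
      _ = X ^ 3 := by ring
  have hDX : 0 ≤ 4 * D * X ^ 2 := by
    have : 0 ≤ D := by linarith
    positivity
  have hN1 : (1 : ℝ) ≤ N := by
    have := hexpo 0 (by simp; positivity)
    simpa using this
  have hN1' : 1 ≤ N := by exact_mod_cast hN1
  have hN0 : (0 : ℝ) < N := by linarith
  have hyN : (y : ℝ) / N ≤ 1 / y := by
    rw [div_le_div_iff₀ hN0 hy0]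
    have := hexpo 2 (by norm_num; linarith)
    nlinarith
  -- (K5)
  have g5 := hK5 y M L N k hN1' hL1 hM1 hMy φ hφ
  -- the primes and the caps
  have hcap : ∀ p, cap M L p ≤ L := by
    intro p
    unfold cap
    split_ifs
    · exact le_rfl
    · exact hL1
  have hcap1 : ∀ p, 1 ≤ cap M L p := by
    intro p
    unfold cap
    split_ifs
    · exact hL1
    · exact le_rfl
  have hS : ∀ p ∈ prs 0 M ∪ prs M y, p.Prime ∧ p ≤ y ∧ (¬ p ≤ M → M < p) := by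
    intro p hp
    simp only [prs, mem_union, mem_filter, mem_Ioc] at hp
    rcases hp with ⟨⟨h3, h4⟩, h5⟩ | ⟨⟨h3, h4⟩, h5⟩
    · exact ⟨h5, h4.trans hMy, fun h => by omega⟩
    · exact ⟨h5, h4, fun h => by omega⟩
  have hpy : ∀ p ∈ prs 0 M ∪ prs M y, p.Prime ∧ p ^ cap M L p ≤ y := by
    intro p hp
    obtain ⟨h5, h6, -⟩ := hS p hp
    refine ⟨h5, ?_⟩
    unfold cap
    split_ifs with h7
    · exact (Nat.pow_le_pow_left h7 L).trans hML
    · simpa using h6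
  have hW : k * ∑ p ∈ prs 0 M ∪ prs M y, cap M L p ≤ y ^ 2 := by
    have h5 : ∑ p ∈ prs 0 M ∪ prs M y, cap M L p ≤ y * L := by
      refine (sum_le_card_nsmul _ _ L fun p _ => hcap p).trans ?_
      rw [smul_eq_mul]
      refine Nat.mul_le_mul_right L ?_
      have h6 : prs 0 M ∪ prs M y ⊆ Ioc 0 y := by
        intro p hp
        obtain ⟨h7, h8, -⟩ := hS p hp
        exact mem_Ioc.2 ⟨h7.pos, h8⟩
      simpa using card_le_card h6
    have h6 : k * L ≤ y := by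
      have h7 : ((k * L : ℕ) : ℝ) ≤ y := by
        push_cast
        calc (k : ℝ) * L ≤ (C₁ * X) * X := mul_le_mul hkX hLle (Nat.cast_nonneg _) (by nlinarith)
          _ = C₁ * X ^ 2 := by ring
          _ ≤ X ^ 2 * X ^ 2 := mul_le_mul_of_nonneg_right (by nlinarith) (by positivity)
          _ = X ^ 4 := by ring
          _ ≤ y := h4.trans h2
      exact_mod_cast h7
    calc k * ∑ p ∈ prs 0 M ∪ prs M y, cap M L p ≤ k * (y * L) := Nat.mul_le_mul_left k h5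
      _ = y * (k * L) := by ring
      _ ≤ y * y := Nat.mul_le_mul_left y h6
      _ = y ^ 2 := by ring
  -- the moment
  have g3 := hK3 (prs 0 M ∪ prs M y) (cap M L) k L fun p hp => ⟨(hS p hp).1, hcap1 p, fun _ => hcap p⟩
  have g4 := hK4 (prs 0 M ∪ prs M y) (cap M L) k ⌈D * X ^ 2⌉₊ (y ^ 2) y N hN1' (by omega) hpy hW φ hφ
  obtain ⟨R, hR⟩ : ∃ R, R = ⌈D * X ^ 2⌉₊ := ⟨_, rfl⟩
  rw [← hR] at g4
  have hR1 : D * X ^ 2 ≤ R := by
    rw [hR]
    exact Nat.le_ceil _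
  have hR2 : (R : ℝ) ≤ D * X ^ 2 + 1 := by
    rw [hR]
    exact (Nat.ceil_lt_add_one (show 0 ≤ D * X ^ 2 by linarith)).le
  obtain ⟨E, hE⟩ : ∃ E : ℝ, E = (∑ n ∈ range (Mo (cap M L) (prs 0 M ∪ prs M y)),
    (25 : ℝ) ^ (∑ i : Fin k, ∑ p ∈ prs 0 M ∪ prs M y, val p (cap M L p) (n + i))) /
      Mo (cap M L) (prs 0 M ∪ prs M y) := ⟨_, rfl⟩
  rw [← hE] at g3 g4
  have hE1 : E ≤ Real.exp (D * X ^ 2) := by
    refine g3.trans ?_
    have e1 : (25 : ℝ) ≤ Real.exp 4 := by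
      have h5 : (2.7 : ℝ) ≤ Real.exp 1 := by
        have := Real.exp_one_gt_d9
        linarith
      have h6 : Real.exp 4 = Real.exp 1 ^ 4 := by
        rw [← Real.exp_nat_mul]
        norm_num
      rw [h6]
      calc (25 : ℝ) ≤ 2.7 ^ 4 := by norm_num
        _ ≤ Real.exp 1 ^ 4 := pow_le_pow_left₀ (by norm_num) h5 4
    have e2 : (25 : ℝ) ^ ((k + 50) * (k + L)) ≤ Real.exp (4 * (C₁ + 1) ^ 2 * X ^ 2) := by
      refine (pow_le_pow_left₀ (by norm_num) e1 _).trans ?_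
      rw [← Real.exp_nat_mul]
      refine Real.exp_le_exp.2 ?_
      push_cast
      have h5 : ((k : ℝ) + 50) * (k + L) ≤ ((C₁ + 1) * X) * ((C₁ + 1) * X) :=
        mul_le_mul (by linarith) (by linarith) (by positivity) (by nlinarith)
      calc ((k : ℝ) + 50) * (k + L) * 4 ≤ ((C₁ + 1) * X) * ((C₁ + 1) * X) * 4 := by linarith
        _ = 4 * (C₁ + 1) ^ 2 * X ^ 2 := by ring
    have e3 : 50 * (k : ℝ) * ∑ p ∈ prs 0 M ∪ prs M y, 1 / (p : ℝ) ≤ 100 * C₁ * X ^ 2 := by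
      have h5 := hm hMy
      calc 50 * (k : ℝ) * ∑ p ∈ prs 0 M ∪ prs M y, 1 / (p : ℝ) ≤ 50 * (k : ℝ) * (2 * X) :=
            mul_le_mul_of_nonneg_left (by linarith) (by positivity)
        _ ≤ 50 * (C₁ * X) * (2 * X) := by
            refine mul_le_mul_of_nonneg_right (by linarith) (by linarith)
        _ = 100 * C₁ * X ^ 2 := by ring
    calc (25 : ℝ) ^ ((k + 50) * (k + L)) * Real.exp (50 * (k : ℝ) * ∑ p ∈ prs 0 M ∪ prs M y, 1 / (p : ℝ))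
        ≤ Real.exp (4 * (C₁ + 1) ^ 2 * X ^ 2) * Real.exp (100 * C₁ * X ^ 2) :=
          mul_le_mul e2 (Real.exp_le_exp.2 e3) (Real.exp_pos _).le (Real.exp_pos _).le
      _ = Real.exp (4 * (C₁ + 1) ^ 2 * X ^ 2 + 100 * C₁ * X ^ 2) := (Real.exp_add _ _).symm
      _ = Real.exp (D * X ^ 2) := by
          rw [hD]
          ring_nf
  have hE2 : E / 8 ^ R ≤ Real.exp (-X) := by
    have e1 : Real.exp 2 ≤ 8 := by
      have h5 := Real.exp_one_lt_d9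
      have h6 : Real.exp 2 = Real.exp 1 ^ 2 := by
        rw [← Real.exp_nat_mul]
        norm_num
      rw [h6]
      have h7 := Real.exp_pos 1
      nlinarith
    have e2 : Real.exp ((2 * D) * X ^ 2) ≤ 8 ^ R := by
      refine le_trans ?_ (pow_le_pow_left₀ (Real.exp_pos 2).le e1 R)
      rw [← Real.exp_nat_mul]
      refine Real.exp_le_exp.2 ?_
      linarith
    rw [div_le_iff₀ (by positivity)]
    refine hE1.trans ?_
    calc Real.exp (D * X ^ 2) ≤ Real.exp (-X + (2 * D) * X ^ 2) := Real.exp_le_exp.2 (by nlinarith)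
      _ = Real.exp (-X) * Real.exp ((2 * D) * X ^ 2) := Real.exp_add _ _
      _ ≤ Real.exp (-X) * 8 ^ R := mul_le_mul_of_nonneg_left e2 (Real.exp_pos _).le
  have hP : (1 + 3 * ((y ^ 2 : ℕ) : ℝ) * y) ^ R / N ≤ 1 / y := by
    rw [div_le_div_iff₀ hN0 hy0, one_mul]
    have h5 : 1 + 3 * ((y ^ 2 : ℕ) : ℝ) * y ≤ (y : ℝ) ^ 4 := by
      have h6 : 1 + 3 * y ^ 2 * y ≤ y ^ 4 := by
        have : 1 ≤ y ^ 3 := Nat.one_le_pow _ _ (by omega)
        calc 1 + 3 * y ^ 2 * y ≤ y ^ 3 + 3 * y ^ 3 := by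
              have : 3 * y ^ 2 * y = 3 * y ^ 3 := by ring
              omega
          _ = 4 * y ^ 3 := by ring
          _ ≤ y * y ^ 3 := Nat.mul_le_mul_right _ hy4
          _ = y ^ 4 := by ring
      exact_mod_cast h6
    calc (1 + 3 * ((y ^ 2 : ℕ) : ℝ) * y) ^ R * y ≤ ((y : ℝ) ^ 4) ^ R * y :=
          mul_le_mul_of_nonneg_right (pow_le_pow_left₀ (by positivity) h5 R) hy0.le
      _ = (y : ℝ) ^ (4 * R + 1) := by rw [← pow_mul, pow_succ]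
      _ ≤ N := hexpo _ (by push_cast; nlinarith)
  -- assembly
  have g6 : |emp y N φ - J (cap M L) (prs 0 M ∪ prs M y) φ| ≤
      |emp y N φ - empc (cap M L) (prs 0 M ∪ prs M y) N φ| +
        |empc (cap M L) (prs 0 M ∪ prs M y) N φ - J (cap M L) (prs 0 M ∪ prs M y) φ| :=
    abs_sub_le _ _ _
  have g7 : 2 * (k : ℝ) * (2 / (2 : ℝ) ^ L + 1 / M + y / N) ≤
      2 * k * (2 / (2 : ℝ) ^ L + 1 / M + 1 / y) :=
    mul_le_mul_of_nonneg_left (by linarith) (by positivity)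
  have g8 : 4 * E / 8 ^ R + 6 * (1 + 3 * ((y ^ 2 : ℕ) : ℝ) * y) ^ R / N ≤
      4 * Real.exp (-X) + 6 * (1 / (y : ℝ)) := by
    rw [mul_div_assoc, mul_div_assoc]
    linarith
  linarith

/-- **Module ERR3.** -/
theorem t_ERR3 (hK3 : S_K3) (hK4 : S_K4) (hK5 : S_K5) (hK6 : S_K6) : S_ERR3 := by
  intro C₁ hC1 ε hε
  have hC0 : 0 < C₁ := by linarith
  have hG : Tendsto (fun y : ℕ => (4 * Real.log (Real.log y) + 4) *
      (2 / (2 : ℝ) ^ ⌊Real.sqrt (Real.log (Real.log y)) / 2⌋₊) +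
      (4 * Real.log (Real.log y) + 4) * (1 / (⌊Real.log (Real.log y) ^ 3⌋₊ : ℝ)) +
      4 * ((4 * Real.log (Real.log y) + 4) * (1 / (y : ℝ))) +
      2 * ((4 * Real.log (Real.log y) + 4) * Real.exp (-Real.log (Real.log y)))) atTop (𝓝 0) := by
    have := ((T1.add T2).add (T5.const_mul 4)).add (T6.const_mul 2)
    simpa using this
  have hG' := hG.eventually_le_const (div_pos hε hC0)
  have hall := (core hK3 hK4 hK5 C₁ hC1).and (hG'.and (tX.eventually_ge_atTop 1))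
  obtain ⟨A, hA⟩ := eventually_atTop.1 hall
  refine ⟨max A 1, fun y N k hy hN hk hkX φ hφ => ?_⟩
  obtain ⟨hc, hg, hX0⟩ := hA y ((le_max_left _ _).trans hy)
  have hy1 : 1 ≤ y := (le_max_right _ _).trans hy
  have hN1' : 1 ≤ N := by
    have h1 : (1 : ℝ) ≤ (y : ℝ) ^ (Real.log (Real.log y) ^ 3) :=
      Real.one_le_rpow (by exact_mod_cast hy1) (by positivity)
    exact_mod_cast h1.trans hN
  have hk1 : (1 : ℝ) ≤ k := by exact_mod_cast hk
  obtain ⟨X, hXd⟩ : ∃ X, Real.log (Real.log (y : ℝ)) = X := ⟨_, rfl⟩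
  rw [hXd] at hc hg hX0 hN hkX ⊢
  obtain ⟨M, hM⟩ : ∃ M, ⌊X ^ 3⌋₊ = M := ⟨_, rfl⟩
  obtain ⟨L, hL⟩ : ∃ L, ⌊Real.sqrt X / 2⌋₊ = L := ⟨_, rfl⟩
  rw [hM] at hc hg ⊢
  rw [hL] at hc hg ⊢
  have ha : (0 : ℝ) ≤ 2 / 2 ^ L := by positivity
  have hb : (0 : ℝ) ≤ 1 / (M : ℝ) := by positivity
  have hcc : (0 : ℝ) ≤ 1 / (y : ℝ) := by positivity
  have he : 0 ≤ Real.exp (-X) := (Real.exp_pos _).le
  obtain ⟨a, had⟩ : ∃ a : ℝ, 2 / (2 : ℝ) ^ L = a := ⟨_, rfl⟩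
  obtain ⟨b, hbd⟩ : ∃ b : ℝ, 1 / (M : ℝ) = b := ⟨_, rfl⟩
  obtain ⟨c, hcd⟩ : ∃ c : ℝ, 1 / (y : ℝ) = c := ⟨_, rfl⟩
  obtain ⟨e, hed⟩ : ∃ e : ℝ, Real.exp (-X) = e := ⟨_, rfl⟩
  rw [had] at ha
  rw [hbd] at hb
  rw [hcd] at hcc
  rw [hed] at he
  rw [had, hbd, hcd, hed] at hc hg
  have key : (k : ℝ) * (2 * (a + b + c) + (4 * e + 6 * c)) ≤ ε := by
    have hkX' : (k : ℝ) ≤ C₁ * (2 * X + 2) := by nlinarith
    calc (k : ℝ) * (2 * (a + b + c) + (4 * e + 6 * c)) ≤ (C₁ * (2 * X + 2)) * (2 * (a + b + c) + (4 * e + 6 * c)) :=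
          mul_le_mul_of_nonneg_right hkX' (by positivity)
      _ = C₁ * ((4 * X + 4) * a + (4 * X + 4) * b + 4 * ((4 * X + 4) * c) + 2 * ((4 * X + 4) * e)) := by ring
      _ ≤ C₁ * (ε / C₁) := mul_le_mul_of_nonneg_left hg hC0.le
      _ = ε := by
          field_simp
  constructor
  · refine (hc N k hN hk hkX φ hφ).trans (le_trans ?_ key)
    have : 4 * e + 6 * c ≤ k * (4 * e + 6 * c) := le_mul_of_one_le_left (by positivity) hk1
    nlinarith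
  · refine (hK6 y N (cap M L) (prs 0 M ∪ prs M y) (2 * (a + b + c) + (4 * e + 6 * c)) hN1' ?_ ?_ k φ hφ).trans key
    · intro p hp
      simp only [prs, mem_union, mem_filter, mem_Ioc] at hp
      rcases hp with hp | hp
      · exact hp.2
      · exact hp.2
    · intro ψ hψ
      have := hc N 1 hN le_rfl (by push_cast; nlinarith) ψ hψ
      simpa using this

end Pool.Agent.H71.OM.E3
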